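import Pool.Agent.Run7.h202.RP.Stm

set_option autoImplicit false

/-!
# Piece MOV of project RP: no near-automorphism moves a linear number of vertices
-/

namespace Run7.h909.RP

open Finset Filter Pool.Agent.H234RC Pool.Agent.TH953.RC Pool.Agent.Y395.RS Pool.Agent.Y395.RW
open Pool.Agent.Run7.h202.RP

/-- prescribed coincidences and many members: `a ∈ F ↔ f a ∈ F` for all `a ∈ I`, where no `f a`
belongs to `I`, and `F ∩ I` has at least `N` elements -/
theorem pr_link' {α : Type} [DecidableEq α] (q : ℝ) (h0 : 0 < q) (h1 : q ≤ 1) (E I : Finset α)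
    (f : α → α) (hI : I ⊆ E) (hf : ∀ a ∈ I, f a ∉ I) (N : ℝ) :
    pr (fun _ => q) E (fun F => (∀ a ∈ I, (a ∈ F ↔ f a ∈ F)) ∧ N ≤ ((F ∩ I).card : ℝ)) ≤
      Real.exp (N * Real.log q) := by
  classical
  have g0 : ∀ e : α, 0 ≤ (fun _ : α => q) e := fun _ => h0.le
  have g1 : ∀ e : α, (fun _ : α => q) e ≤ 1 := fun _ => h1
  apply pr_cond g0 g1 E I hI
  intro F0 hF0
  set A0 : Finset α := I.filter (fun a => f a ∈ F0) with hA0
  have hmem : ∀ A : Finset α, A ⊆ I → (∀ a ∈ I, (a ∈ F0 ∪ A ↔ f a ∈ F0 ∪ A)) → A = A0 := by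
    intro A hA h
    ext a
    rw [hA0, mem_filter]
    constructor
    · intro ha
      refine ⟨hA ha, ?_⟩
      have := (h a (hA ha)).1 (mem_union_right _ ha)
      rcases mem_union.1 this with h' | h'
      · exact h'
      · exact absurd (hA h') (hf a (hA ha))
    · rintro ⟨ha, h'⟩
      have := (h a ha).2 (mem_union_left _ h')
      rcases mem_union.1 this with h2 | h2
      · exact absurd ha (mem_sdiff.1 (hF0 h2)).2
      · exact h2
  have hint : ∀ A : Finset α, A ⊆ I → (F0 ∪ A) ∩ I = A := by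
    intro A hA
    ext a
    rw [mem_inter, mem_union]
    constructor
    · rintro ⟨h | h, h'⟩
      · exact absurd h' (mem_sdiff.1 (hF0 h)).2
      · exact h
    · intro h
      exact ⟨Or.inr h, hA h⟩
  by_cases hN : N ≤ (A0.card : ℝ)
  · have hle : pr (fun _ => q) I (fun A => (∀ a ∈ I, (a ∈ F0 ∪ A ↔ f a ∈ F0 ∪ A)) ∧
        N ≤ (((F0 ∪ A) ∩ I).card : ℝ)) ≤
        ∑ A ∈ ({A0} : Finset (Finset α)), wt (fun _ => q) I A := by
      unfold pr
      apply sum_le_sum_of_subset_of_nonneg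
      · intro A hA
        simp only [mem_filter, mem_powerset] at hA
        rw [mem_singleton]
        exact hmem A hA.1 hA.2.1
      · intro A _ _
        exact wt_nonneg g0 g1 I A
    rw [sum_singleton] at hle
    refine hle.trans ?_
    unfold wt
    have e1 : ∏ e ∈ A0, (fun _ : α => q) e = Real.exp ((A0.card : ℝ) * Real.log q) := by
      rw [prod_const, Real.exp_nat_mul, Real.exp_log h0]
    have e2 : ∏ e ∈ I \ A0, (1 - (fun _ : α => q) e) ≤ 1 :=
      prod_le_one (fun e _ => by show 0 ≤ 1 - q; linarith) (fun e _ => by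
        show 1 - q ≤ 1; linarith)
    rw [e1]
    have e3 : Real.exp ((A0.card : ℝ) * Real.log q) ≤ Real.exp (N * Real.log q) := by
      apply Real.exp_le_exp.2
      have : Real.log q ≤ 0 := Real.log_nonpos h0.le h1
      nlinarith
    calc Real.exp ((A0.card : ℝ) * Real.log q) * ∏ e ∈ I \ A0, (1 - (fun _ : α => q) e)
        ≤ Real.exp ((A0.card : ℝ) * Real.log q) * 1 :=
          mul_le_mul_of_nonneg_left e2 (Real.exp_pos _).le
      _ ≤ _ := by rw [mul_one]; exact e3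
  · refine (pr_mono g0 g1 (Q := fun _ => False) ?_).trans ?_
    · intro A hA h
      apply hN
      rw [hint A hA] at h
      rw [← hmem A hA h.1]
      exact h.2
    · rw [pr_false]
      exact (Real.exp_pos _).le

/-- the estimate for one near-automorphism -/
theorem one_na {V : Type} [Fintype V] [DecidableEq V] (p ε : ℝ) (hp0 : 0 < p) (hp1 : p ≤ 1)
    (hε : 0 < ε) (hn : 12 / ε ≤ Fintype.card V) (hn2 : 16 ≤ Fintype.card V) (φ : NAut V)
    (hφ : ε * Fintype.card V ≤ ((mv φ).card : ℝ)) :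
    P (V := V) p (fun F => Bip p (ε / 4) F ∧ IsNA (gr F) φ) ≤
      Real.exp ((p * ε * (Fintype.card V : ℝ) ^ 2 / 32) * Real.log p) := by
  classical
  set n := Fintype.card V with hnd
  have hn16 : (16 : ℝ) ≤ n := by exact_mod_cast hn2
  have hmvn : ((mv φ).card : ℝ) ≤ n := by exact_mod_cast card_le_univ _
  have hε1 : ε ≤ 1 := by
    by_contra hc
    push Not at hc
    nlinarith
  have hεn : 12 ≤ ε * n := by
    rw [div_le_iff₀ hε] at hn
    linarith
  obtain ⟨k, hk⟩ : ∃ k : ℕ, k = ⌈ε * n / 4⌉₊ := ⟨_, rfl⟩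
  have hk1 : ε * n / 4 ≤ k := by rw [hk]; exact Nat.le_ceil _
  have hk2 : (k : ℝ) < ε * n / 4 + 1 := by rw [hk]; exact Nat.ceil_lt_add_one (by positivity)
  have hk3 : 3 * k ≤ (mv φ).card := by
    have : (3 * k : ℝ) ≤ (mv φ).card := by linarith
    exact_mod_cast this
  obtain ⟨S, hSc, hSm, hS⟩ := exists_indep φ k hk3
  have hb : ∀ x ∈ S, x ≠ φ.2.1 ∧ x ≠ φ.2.2 ∧ φ.1 x ≠ x := fun x hx =>
    (mem_filter.1 (hSm hx)).2
  set B : Finset V := (S ∪ S.image φ.1) ∪ {φ.2.1, φ.2.2} with hB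
  set W : Finset V := univ \ B with hW
  have hBc : B.card ≤ 2 * k + 2 := by
    refine (card_union_le _ _).trans ?_
    have h1 := card_union_le S (S.image φ.1)
    have h2 : (S.image φ.1).card ≤ S.card := card_image_le
    have h3 : ({φ.2.1, φ.2.2} : Finset V).card ≤ 2 := card_le_two
    omega
  have hWc : (n : ℝ) / 4 ≤ W.card := by
    have h1 : W.card = n - B.card := by rw [hW, card_univ_sdiff]
    have h2 : B.card ≤ n := card_le_univ _
    have h3 : (W.card : ℝ) = n - B.card := by rw [h1, Nat.cast_sub h2]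
    have h4 : (B.card : ℝ) ≤ 2 * k + 2 := by exact_mod_cast hBc
    rw [h3]
    nlinarith
  have hWm : ∀ w ∈ W, w ∉ S ∧ (∀ x ∈ S, φ.1 x ≠ w) ∧ w ≠ φ.2.1 ∧ w ≠ φ.2.2 := by
    intro w hw
    have h1 := (mem_sdiff.1 hw).2
    rw [hB, mem_union, mem_union, mem_insert, mem_singleton] at h1
    push Not at h1
    refine ⟨h1.1.1, ?_, h1.2.1, h1.2.2⟩
    intro x hx he
    exact h1.1.2 (mem_image.2 ⟨x, hx, he⟩)
  have hdis : Disjoint S W := by
    rw [disjoint_left]
    intro x hx hw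
    exact (hWm x hw).1 hx
  set T : Finset (Sym2 V) := (S ×ˢ W).image (fun q => s(q.1, q.2)) with hT
  have hTE : T ⊆ pairs V := by
    intro e he
    obtain ⟨⟨x, w⟩, hq, rfl⟩ := mem_image.1 he
    rw [mem_product] at hq
    rw [mem_pairs]
    intro h
    have h' : x = w := h
    exact (hWm w hq.2).1 (h' ▸ hq.1)
  have hfT : ∀ a ∈ T, Sym2.map φ.1 a ∉ T := by
    intro a ha hc
    obtain ⟨⟨x, w⟩, hq, rfl⟩ := mem_image.1 ha
    obtain ⟨⟨x', w'⟩, hq', he⟩ := mem_image.1 hc
    rw [mem_product] at hq hq'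
    rw [Sym2.map_mk] at he
    rcases Sym2.eq_iff.1 he with ⟨h1, -⟩ | ⟨-, h1⟩
    · exact hS x hq.1 (h1 ▸ hq'.1)
    · exact (hWm w' hq'.2).2.1 x hq.1 h1.symm
  have hinj : Set.InjOn (fun q : V × V => s(q.1, q.2)) (S ×ˢ W : Finset (V × V)) := by
    rintro ⟨x, w⟩ hq ⟨x', w'⟩ hq' he
    rw [mem_coe, mem_product] at hq hq'
    rcases Sym2.eq_iff.1 he with ⟨h1, h2⟩ | ⟨h1, -⟩
    · exact Prod.ext h1 h2
    · exfalso
      have h1' : x = w' := h1
      exact (hWm w' hq'.2).1 (h1' ▸ hq.1)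
  have hmain := pr_link' p hp0 hp1 (pairs V) T (Sym2.map φ.1) hTE hfT
    (p * S.card * W.card / 2)
  refine (pr_mono (fun _ => hp0.le) (fun _ => hp1) ?_).trans (hmain.trans ?_)
  · rintro F hF ⟨hBip, hNA⟩
    refine ⟨?_, ?_⟩
    · intro a ha
      obtain ⟨⟨x, w⟩, hq, rfl⟩ := mem_image.1 ha
      rw [mem_product] at hq
      obtain ⟨b1, b2, -⟩ := hb x hq.1
      obtain ⟨-, -, c1, c2⟩ := hWm w hq.2
      rw [Sym2.map_mk]
      show s(x, w) ∈ F ↔ s(φ.1 x, φ.1 w) ∈ F
      rw [← adj_pairs hF, ← adj_pairs hF]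
      exact (hNA x w b1 b2 c1 c2).symm
    · refine (hBip S W hdis ?_ hWc).trans ?_
      · rw [hSc]
        calc ε / 4 * (n : ℝ) = ε * n / 4 := by ring
          _ ≤ k := hk1
      · unfold eBt
        have : ((S ×ˢ W).filter (fun q => s(q.1, q.2) ∈ F)).card ≤ (F ∩ T).card := by
          apply card_le_card_of_injOn (fun q => s(q.1, q.2))
          · intro q hq
            rw [mem_coe, mem_filter] at hq
            rw [mem_coe, mem_inter]
            exact ⟨hq.2, mem_image.2 ⟨q, hq.1, rfl⟩⟩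
          · intro a ha b hb' he
            exact hinj (mem_filter.1 ha).1 (mem_filter.1 hb').1 he
        rw [Nat.cast_le]
        convert this
  · apply Real.exp_le_exp.2
    have hl : Real.log p ≤ 0 := Real.log_nonpos hp0.le hp1
    have hSk : ε * n / 4 ≤ (S.card : ℝ) := by rw [hSc]; exact hk1
    have h1 : ε * n / 4 * (n / 4) ≤ (S.card : ℝ) * W.card :=
      mul_le_mul hSk hWc (by positivity) (by positivity)
    have h2 : p * ε * (n : ℝ) ^ 2 / 32 ≤ p * S.card * W.card / 2 := by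
      have h3 := mul_le_mul_of_nonneg_left h1 hp0.le
      calc p * ε * (n : ℝ) ^ 2 / 32 = p * (ε * n / 4 * (n / 4)) / 2 := by ring
        _ ≤ p * (S.card * W.card) / 2 := by linarith
        _ = _ := by ring
    exact mul_le_mul_of_nonpos_right h2 hl

/-- the numerical estimate -/
theorem num (ε : ℝ) (hε : 0 < ε) : ∀ᶠ n : ℕ in atTop, ∀ p : ℝ, Rg n p →
    0 < p ∧ p ≤ 1 ∧ 12 / ε ≤ n ∧ 16 ≤ n ∧
    (n : ℝ) ^ (n + 2) * Real.exp ((p * ε * (n : ℝ) ^ 2 / 32) * Real.log p) ≤ 1 / (n : ℝ) ^ 8 := by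
  have hlog : Tendsto (fun n : ℕ => Real.log (n : ℝ)) atTop atTop :=
    Real.tendsto_log_atTop.comp tendsto_natCast_atTop_atTop
  have hlo : ∀ᶠ n : ℕ in atTop, 400 * Real.log (n : ℝ) ≤ Real.sqrt n := by
    have h1 : (fun x : ℝ => Real.log x) =o[atTop] fun x : ℝ => x ^ (1 / 2 : ℝ) :=
      isLittleO_log_rpow_atTop (by norm_num)
    have h2 := h1.bound (show (0 : ℝ) < 1 / 400 by norm_num)
    have h3 := tendsto_natCast_atTop_atTop (R := ℝ) |>.eventually h2
    filter_upwards [h3, eventually_ge_atTop 1] with n hn hn1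
    have hn1' : (1 : ℝ) ≤ n := by exact_mod_cast hn1
    rw [Real.norm_of_nonneg (Real.log_nonneg hn1'),
      Real.norm_of_nonneg (Real.rpow_nonneg (by linarith) _), ← Real.sqrt_eq_rpow] at hn
    linarith
  filter_upwards [hlo, hlog.eventually_ge_atTop (1024 / ε), hlog.eventually_ge_atTop 1,
    eventually_ge_atTop 16, tendsto_natCast_atTop_atTop.eventually_ge_atTop (12 / ε)]
    with n h1 h2 h3 h4 h5 p hp
  have hn16 : (16 : ℝ) ≤ n := by exact_mod_cast h4
  have hn0 : (0 : ℝ) < n := by linarith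
  set l := Real.log (n : ℝ) with hl
  obtain ⟨hp1, hp2⟩ := hp
  have hp0 : 0 < p := lt_of_lt_of_le (by positivity) hp1
  have hsq : Real.sqrt n * Real.sqrt n = n := Real.mul_self_sqrt hn0.le
  have hs0 : 0 < Real.sqrt n := Real.sqrt_pos.2 hn0
  have hp3 : p ≤ 1 / Real.sqrt n := by
    refine hp2.trans ?_
    rw [div_le_div_iff₀ hn0 hs0]
    nlinarith
  have hs1 : 1 ≤ Real.sqrt n := by
    rw [Real.one_le_sqrt]
    linarith
  have hp4 : p ≤ 1 := hp3.trans (by rw [div_le_one hs0]; exact hs1)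
  have hlp : Real.log p ≤ -(l / 2) := by
    refine (Real.log_le_log hp0 hp3).trans (le_of_eq ?_)
    rw [one_div, Real.log_inv, Real.log_sqrt hn0.le]
  refine ⟨hp0, hp4, h5, h4, ?_⟩
  have e1 : (n : ℝ) ^ (n + 2) = Real.exp (((n : ℝ) + 2) * l) := by
    rw [← Real.exp_log hn0, ← Real.exp_nat_mul, Real.exp_log hn0]
    push_cast
    rfl
  have e2 : 1 / (n : ℝ) ^ 8 = Real.exp (-(8 * l)) := by
    rw [Real.exp_neg, one_div]
    congr 1
    have e3 : Real.exp (8 * l) = Real.exp l ^ 8 := by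
      rw [← Real.exp_nat_mul]
      norm_num
    rw [e3, hl, Real.exp_log hn0]
  rw [e1, e2, ← Real.exp_add]
  apply Real.exp_le_exp.2
  have hpn : l / 8 ≤ p * n := by
    rw [div_le_iff₀ (by positivity)] at hp1
    linarith
  have hA : ε * n * l / 256 ≤ p * ε * (n : ℝ) ^ 2 / 32 := by
    have := mul_le_mul_of_nonneg_left hpn (show 0 ≤ ε * n / 32 by positivity)
    calc ε * n * l / 256 = ε * n / 32 * (l / 8) := by ring
      _ ≤ ε * n / 32 * (p * n) := this
      _ = _ := by ring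
  have hB : (p * ε * (n : ℝ) ^ 2 / 32) * Real.log p ≤ (ε * n * l / 256) * (-(l / 2)) := by
    have h6 : (p * ε * (n : ℝ) ^ 2 / 32) * Real.log p ≤
        (p * ε * (n : ℝ) ^ 2 / 32) * (-(l / 2)) :=
      mul_le_mul_of_nonneg_left hlp (by positivity)
    refine h6.trans ?_
    exact mul_le_mul_of_nonpos_right hA (by linarith)
  have hεl : 1024 ≤ ε * l := by
    rw [div_le_iff₀ hε] at h2
    linarith
  have hC : 2 * n * l ≤ ε * n * l / 256 * (l / 2) := by
    have := mul_le_mul_of_nonneg_left hεl (show 0 ≤ n * l / 512 by positivity)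
    calc 2 * n * l = n * l / 512 * 1024 := by ring
      _ ≤ n * l / 512 * (ε * l) := this
      _ = _ := by ring
  have hD : ((n : ℝ) + 2) * l + 8 * l ≤ 2 * n * l := by nlinarith
  linarith

/-- **MOV** -/
theorem t_MOV : MOV := by
  classical
  intro ε hε
  filter_upwards [num ε hε] with n hn V _ _ p hV hp
  obtain ⟨hp0, hp1, h12, h16, hfin⟩ := hn p hp
  subst hV
  set n := Fintype.card V with hnd
  let I : Finset (NAut V) := univ.filter (fun φ => ε * n ≤ ((mv φ).card : ℝ))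
  have g0 : ∀ e : Sym2 V, 0 ≤ (fun _ : Sym2 V => p) e := fun _ => hp0.le
  have g1 : ∀ e : Sym2 V, (fun _ : Sym2 V => p) e ≤ 1 := fun _ => hp1
  have hU := pr_ex g0 g1 (pairs V) I (fun φ F => Bip p (ε / 4) F ∧ IsNA (gr F) φ)
  refine (pr_mono g0 g1 ?_).trans (hU.trans (le_trans (sum_le_sum (g := fun _ =>
    Real.exp ((p * ε * (n : ℝ) ^ 2 / 32) * Real.log p)) ?_) ?_))
  · rintro F hF ⟨hB, φ, h1, h2⟩
    exact ⟨φ, mem_filter.2 ⟨mem_univ _, h2⟩, hB, h1⟩
  · intro φ hφ
    exact one_na p ε hp0 hp1 hε h12 h16 φ (mem_filter.1 hφ).2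
  · rw [sum_const, nsmul_eq_mul]
    refine le_trans (mul_le_mul_of_nonneg_right ?_ (Real.exp_pos _).le) hfin
    have h1 : I.card ≤ Fintype.card (NAut V) := card_le_univ _
    have h2 : Fintype.card (NAut V) = n.factorial * (n * n) := by
      rw [Fintype.card_prod, Fintype.card_prod, Fintype.card_perm]
    have h3 : n.factorial * (n * n) ≤ n ^ n * (n * n) :=
      Nat.mul_le_mul_right _ (Nat.factorial_le_pow n)
    have h4 : I.card ≤ n ^ (n + 2) := by
      refine h1.trans (h2.le.trans (h3.trans (le_of_eq ?_)))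
      ring
    exact_mod_cast h4

end Run7.h909.RP
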